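import Pool.Agent.Helper140.MC.Types

set_option autoImplicit false

/-!
# Back and forth for components
-/

namespace Pool.Agent.Helper140.MC

open FirstOrder FirstOrder.Language Set Order

variable {L : FirstOrder.Language.{0, 0}} {Φ : Set (Σ n : ℕ, L.Formula (Fin n))}

/-- the union of the components of the entries of `v` -/
def Cmp {L : FirstOrder.Language.{0, 0}} (Φ : Set (Σ n : ℕ, L.Formula (Fin n))) {M α : Type}
    [L.Structure M] (v : α → M) : Set M := {c | ∃ i, Conn Φ (v i) c}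

theorem mem_cmp {M α : Type} [L.Structure M] (v : α → M) (i : α) : v i ∈ Cmp Φ v :=
  ⟨i, Conn.refl _⟩

/-- a finite partial elementary map, as a set of pairs -/
def PEl (L : FirstOrder.Language.{0, 0}) {M N : Type} [L.Structure M] [L.Structure N]
    (s : Finset (M × N)) : Prop :=
  EE L (fun x : {x // x ∈ s} => x.1.1) (fun x : {x // x ∈ s} => x.1.2)

theorem PEl.of_surj {M N β : Type} [L.Structure M] [L.Structure N] {s : Finset (M × N)}
    (x : β → M × N) (hx : ∀ y ∈ s, ∃ b, x b = y) (h : EE L (fun b => (x b).1) fun b => (x b).2) :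
    PEl L s := by
  choose g hg using hx
  have h1 := h.comp (fun y : {y // y ∈ s} => g y.1 y.2)
  have e1 : (fun b => (x b).1) ∘ (fun y : {y // y ∈ s} => g y.1 y.2) =
      fun y : {y // y ∈ s} => y.1.1 := by
    funext y
    simp only [Function.comp_apply, hg]
  have e2 : (fun b => (x b).2) ∘ (fun y : {y // y ∈ s} => g y.1 y.2) =
      fun y : {y // y ∈ s} => y.1.2 := by
    funext y
    simp only [Function.comp_apply, hg]
  rw [e1, e2] at h1
  exact h1

theorem PEl.family {M N β : Type} [L.Structure M] [L.Structure N] {s : Finset (M × N)}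
    (h : PEl L s) (x : β → M × N) (hx : ∀ b, x b ∈ s) :
    EE L (fun b => (x b).1) fun b => (x b).2 :=
  EE.comp (v := fun x : {x // x ∈ s} => x.1.1) h (fun b => (⟨x b, hx b⟩ : {x // x ∈ s}))

open Classical in
theorem PEl.forth {M N : Type} [L.Structure M] [L.Structure N] (hM : LocIsol Φ M)
    {s : Finset (M × N)} (h : PEl L s) {x : M × N} (hx : x ∈ s) {c : M} (hc : Conn Φ x.1 c) :
    ∃ d : N, Conn Φ x.2 d ∧ PEl L (insert (c, d) s) := by
  have h1 : Isol L (fun x : {x // x ∈ s} => x.1.1) c := hM _ _ ⟨x, hx⟩ c hc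
  obtain ⟨d, hd⟩ := h1.extend h
  refine ⟨d, ?_, ?_⟩
  · have h2 := hd.comp (fun z : Bool => bif z then Sum.inr () else Sum.inl ⟨x, hx⟩)
    have e1 : ext (fun x : {x // x ∈ s} => x.1.1) c ∘
        (fun z : Bool => bif z then Sum.inr () else Sum.inl ⟨x, hx⟩) = pr x.1 c := by
      funext z
      cases z <;> rfl
    have e2 : ext (fun x : {x // x ∈ s} => x.1.2) d ∘
        (fun z : Bool => bif z then Sum.inr () else Sum.inl ⟨x, hx⟩) = pr x.2 d := by
      funext z
      cases z <;> rfl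
    rw [e1, e2] at h2
    exact h2.conn hc
  · refine PEl.of_surj (β := {x // x ∈ s} ⊕ Unit)
      (fun z => Sum.elim (fun y : {x // x ∈ s} => y.1) (fun _ => (c, d)) z) ?_ ?_
    · intro y hy
      rcases Finset.mem_insert.1 hy with rfl | hy
      · exact ⟨Sum.inr (), rfl⟩
      · exact ⟨Sum.inl ⟨y, hy⟩, rfl⟩
    · have e1 : (fun z : {x // x ∈ s} ⊕ Unit =>
          (Sum.elim (fun y : {x // x ∈ s} => y.1) (fun _ => (c, d)) z).1) =
          ext (fun x : {x // x ∈ s} => x.1.1) c := by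
        funext z
        rcases z with z | z <;> rfl
      have e2 : (fun z : {x // x ∈ s} ⊕ Unit =>
          (Sum.elim (fun y : {x // x ∈ s} => y.1) (fun _ => (c, d)) z).2) =
          ext (fun x : {x // x ∈ s} => x.1.2) d := by
        funext z
        rcases z with z | z <;> rfl
      rw [e1, e2]
      exact hd

open Classical in
theorem PEl.swap {M N : Type} [L.Structure M] [L.Structure N] {s : Finset (M × N)}
    (h : PEl L s) : PEl L (s.image Prod.swap) := by
  refine PEl.of_surj (β := {x // x ∈ s}) (fun z => z.1.swap) ?_ (EE.symm h)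
  intro y hy
  obtain ⟨x, hx, rfl⟩ := Finset.mem_image.1 hy
  exact ⟨⟨x, hx⟩, rfl⟩

open Classical in
theorem PEl.back {M N : Type} [L.Structure M] [L.Structure N] (hN : LocIsol Φ N)
    {s : Finset (M × N)} (h : PEl L s) {x : M × N} (hx : x ∈ s) {d : N} (hd : Conn Φ x.2 d) :
    ∃ c : M, Conn Φ x.1 c ∧ PEl L (insert (c, d) s) := by
  obtain ⟨c, h1, h2⟩ := PEl.forth hN h.swap (x := x.swap) (Finset.mem_image_of_mem _ hx) hd
  refine ⟨c, h1, ?_⟩
  have h3 := h2.swap
  have e1 : (insert (d, c) (s.image Prod.swap)).image Prod.swap = insert (c, d) s := by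
    rw [Finset.image_insert, Finset.image_image]
    congr 1
    rw [Prod.swap_swap_eq, Finset.image_id]
  rw [e1] at h3
  exact h3

/-- **The back-and-forth argument.** Tuples with the same type have isomorphic components. -/
theorem component_equiv {M N α : Type} [L.Structure M] [L.Structure N] [Countable M] [Countable N]
    [Finite α] (hM : LocIsol Φ M) (hN : LocIsol Φ N) {v : α → M} {w : α → N} (h : EE L v w) :
    ∃ e : Cmp Φ v ≃ Cmp Φ w, (∀ i, e ⟨v i, mem_cmp v i⟩ = ⟨w i, mem_cmp w i⟩) ∧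
      ∀ (β : Type) [Finite β] (t : β → Cmp Φ v),
        EE L (fun j => (t j : M)) (fun j => (e (t j) : N)) := by
  classical
  have : Fintype α := Fintype.ofFinite α
  let s₀ : Finset (M × N) := Finset.univ.image fun i => (v i, w i)
  let P : Type := {s : Finset (M × N) // s₀ ⊆ s ∧ PEl L s ∧
    ∀ x ∈ s, x.1 ∈ Cmp Φ v ∧ x.2 ∈ Cmp Φ w}
  have hs₀ : ∀ i, (v i, w i) ∈ s₀ := fun i => Finset.mem_image_of_mem _ (Finset.mem_univ i)
  let p₀ : P := ⟨s₀, subset_rfl, PEl.of_surj (fun i => (v i, w i)) (fun y hy => by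
      obtain ⟨i, -, rfl⟩ := Finset.mem_image.1 hy
      exact ⟨i, rfl⟩) h, fun x hx => by
      obtain ⟨i, -, rfl⟩ := Finset.mem_image.1 hx
      exact ⟨mem_cmp v i, mem_cmp w i⟩⟩
  let DL : Cmp Φ v → Cofinal P := fun c => ⟨{s | ∃ d, (c.1, d) ∈ s.1}, fun s => by
    obtain ⟨i, hi⟩ := c.2
    obtain ⟨d, h1, h2⟩ := PEl.forth hM s.2.2.1 (s.2.1 (hs₀ i)) hi
    refine ⟨⟨insert (c.1, d) s.1, s.2.1.trans (Finset.subset_insert _ _), h2, fun x hx => ?_⟩,
      ⟨d, Finset.mem_insert_self _ _⟩, Finset.subset_insert _ _⟩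
    rcases Finset.mem_insert.1 hx with rfl | hx
    · exact ⟨c.2, i, h1⟩
    · exact s.2.2.2 x hx⟩
  let DR : Cmp Φ w → Cofinal P := fun d => ⟨{s | ∃ c, (c, d.1) ∈ s.1}, fun s => by
    obtain ⟨i, hi⟩ := d.2
    obtain ⟨c, h1, h2⟩ := PEl.back hN s.2.2.1 (s.2.1 (hs₀ i)) hi
    refine ⟨⟨insert (c, d.1) s.1, s.2.1.trans (Finset.subset_insert _ _), h2, fun x hx => ?_⟩,
      ⟨c, Finset.mem_insert_self _ _⟩, Finset.subset_insert _ _⟩
    rcases Finset.mem_insert.1 hx with rfl | hx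
    · exact ⟨⟨i, h1⟩, d.2⟩
    · exact s.2.2.2 x hx⟩
  have : Encodable (Cmp Φ v ⊕ Cmp Φ w) := Encodable.ofCountable _
  let I : Ideal P := idealOfCofinals p₀ (Sum.elim DL DR)
  have hdir : ∀ (β : Type) [Finite β] (f : β → P), (∀ b, f b ∈ I) → ∃ s ∈ I, ∀ b, f b ≤ s := by
    intro β _ f hf
    have : IsDirectedOrder {x // x ∈ I} := ⟨fun a b => by
      obtain ⟨c, hc, h1, h2⟩ := I.directed a.1 a.2 b.1 b.2
      exact ⟨⟨c, hc⟩, h1, h2⟩⟩
    have : Nonempty {x // x ∈ I} := ⟨⟨p₀, mem_idealOfCofinals _ _⟩⟩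
    obtain ⟨s, hs⟩ := Finite.exists_le (fun b => (⟨f b, hf b⟩ : {x // x ∈ I}))
    exact ⟨s.1, s.2, hs⟩
  -- the relation
  let Rel : M → N → Prop := fun c d => ∃ s : P, s ∈ I ∧ (c, d) ∈ s.1
  have hfam : ∀ (β : Type) [Finite β] (x : β → M × N), (∀ b, Rel (x b).1 (x b).2) →
      EE L (fun b => (x b).1) fun b => (x b).2 := by
    intro β _ x hx
    choose f hf1 hf2 using hx
    obtain ⟨s, -, hs⟩ := hdir β f hf1
    exact s.2.2.1.family x fun b => hs b (hf2 b)
  have hfun : ∀ c d c' d', Rel c d → Rel c' d' → (c = c' ↔ d = d') := by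
    intro c d c' d' h1 h2
    have h3 := hfam Bool (fun z => bif z then (c', d') else (c, d)) (fun z => by
      cases z
      · exact h1
      · exact h2) ((Term.var false : L.Term Bool).equal (Term.var true))
    rw [Formula.realize_equal, Formula.realize_equal] at h3
    exact h3
  have htot : ∀ c : Cmp Φ v, ∃ d : Cmp Φ w, Rel c.1 d.1 := by
    intro c
    obtain ⟨s, ⟨d, hd⟩, hs⟩ := cofinal_meets_idealOfCofinals p₀ (Sum.elim DL DR) (Sum.inl c)
    exact ⟨⟨d, (s.2.2.2 _ hd).2⟩, s, hs, hd⟩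
  have hsur : ∀ d : Cmp Φ w, ∃ c : Cmp Φ v, Rel c.1 d.1 := by
    intro d
    obtain ⟨s, ⟨c, hc⟩, hs⟩ := cofinal_meets_idealOfCofinals p₀ (Sum.elim DL DR) (Sum.inr d)
    exact ⟨⟨c, (s.2.2.2 _ hc).1⟩, s, hs, hc⟩
  choose f hf using htot
  choose g hg using hsur
  refine ⟨⟨f, g, fun c => ?_, fun d => ?_⟩, fun i => ?_, fun β _ t => ?_⟩
  · exact Subtype.ext ((hfun _ _ _ _ (hg (f c)) (hf c)).2 rfl)
  · exact Subtype.ext ((hfun _ _ _ _ (hf (g d)) (hg d)).1 rfl)
  · refine Subtype.ext ((hfun _ _ _ _ (hf ⟨v i, mem_cmp v i⟩) ?_).1 rfl)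
    exact ⟨p₀, mem_idealOfCofinals _ _, hs₀ i⟩
  · exact hfam β (fun j => ((t j : M), (f (t j) : N))) fun j => hf (t j)

end Pool.Agent.Helper140.MC
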