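import Pool.Agent.Helper140.MC.Iso

set_option autoImplicit false

/-!
# The fragment `L_1(T)`
-/

namespace Pool.Agent.Helper140.MC

open FirstOrder FirstOrder.Language Set

/-- Formulas of the least fragment `L_1(T)` of `L_{ω₁ω}` that contains the first-order formulas and
the conjunctions of all complete types of `T`; the variables are the natural numbers.
`typ n p s` is the conjunction of the type `p` in the variables `s 0, …, s (n - 1)`. -/
inductive Fm (L : FirstOrder.Language.{0, 0}) (T : L.Theory) : Type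
  | fo (φ : L.Formula ℕ) : Fm L T
  | typ (n : ℕ) (p : T.CompleteType (Fin n)) (s : Fin n → ℕ) : Fm L T
  | neg (φ : Fm L T) : Fm L T
  | and (φ ψ : Fm L T) : Fm L T
  | ex (x : ℕ) (φ : Fm L T) : Fm L T

variable {L : FirstOrder.Language.{0, 0}} {T : L.Theory}

/-- the free variables -/
def Fm.fv : Fm L T → Set ℕ
  | fo φ => {x | x ∈ BoundedFormula.freeVarFinset φ}
  | typ _ _ s => range s
  | neg φ => φ.fv
  | and φ ψ => φ.fv ∪ ψ.fv
  | ex x φ => φ.fv \ {x}

/-- the satisfaction relation -/
def Fm.Sat {M : Type} [L.Structure M] : Fm L T → (ℕ → M) → Prop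
  | fo φ, v => φ.Realize v
  | typ n p s, v => ∀ φ : L.Formula (Fin n), Formula.equivSentence φ ∈ p →
      φ.Realize fun i => v (s i)
  | neg φ, v => ¬ φ.Sat v
  | and φ ψ, v => φ.Sat v ∧ ψ.Sat v
  | ex x φ, v => ∃ a : M, φ.Sat (Function.update v x a)

/-- `T_1(M)`: the sentences of `L_1(T)` that are true in `M` -/
def T1 (T : L.Theory) (M : Type) [L.Structure M] : Set (Fm L T) :=
  {φ | φ.fv = ∅ ∧ ∀ v : ℕ → M, φ.Sat v}

/-- existential quantifiers for the variables less than `k` -/
def exs : ℕ → Fm L T → Fm L T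
  | 0, φ => φ
  | k + 1, φ => exs k (Fm.ex k φ)

theorem fv_exs (k : ℕ) : ∀ φ : Fm L T, (exs k φ).fv = φ.fv \ {j | j < k} := by
  induction k with
  | zero => intro φ; simp [exs]
  | succ k ih =>
    intro φ
    rw [exs, ih, Fm.fv]
    ext j
    simp only [Set.mem_sdiff, Set.mem_singleton_iff, Set.mem_ofPred_eq]
    constructor
    · rintro ⟨⟨h1, h2⟩, h3⟩
      exact ⟨h1, by omega⟩
    · rintro ⟨h1, h2⟩
      exact ⟨⟨h1, by omega⟩, by omega⟩

theorem sat_exs {M : Type} [L.Structure M] (k : ℕ) : ∀ (φ : Fm L T) (v : ℕ → M),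
    (exs k φ).Sat v ↔ ∃ u : ℕ → M, (∀ j, k ≤ j → u j = v j) ∧ φ.Sat u := by
  induction k with
  | zero =>
    intro φ v
    rw [exs]
    constructor
    · intro h
      exact ⟨v, fun _ _ => rfl, h⟩
    · rintro ⟨u, hu, h⟩
      have : u = v := funext fun j => hu j (Nat.zero_le _)
      rwa [← this]
  | succ k ih =>
    intro φ v
    rw [exs, ih]
    constructor
    · rintro ⟨u, hu, a, ha⟩
      refine ⟨Function.update u k a, fun j hj => ?_, ha⟩
      rw [Function.update_of_ne (by omega)]
      exact hu j (by omega)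
    · rintro ⟨u, hu, h⟩
      refine ⟨Function.update u k (v k), fun j hj => ?_, u k, ?_⟩
      · by_cases hjk : j = k
        · subst hjk
          rw [Function.update_self]
        · rw [Function.update_of_ne hjk]
          exact hu j (by omega)
      · rw [Function.update_idem, Function.update_eq_self]
        exact h

/-- the sentence saying that the type `p` is realized -/
def realizedSentence (n : ℕ) (p : T.CompleteType (Fin n)) : Fm L T :=
  exs n (Fm.typ n p fun i => i.val)

theorem fv_realizedSentence (n : ℕ) (p : T.CompleteType (Fin n)) :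
    (realizedSentence n p).fv = ∅ := by
  rw [realizedSentence, fv_exs, Fm.fv]
  ext j
  simp only [Set.mem_sdiff, Set.mem_range, Set.mem_ofPred_eq, Set.mem_empty_iff_false, iff_false,
    not_and, not_not]
  rintro ⟨i, rfl⟩
  exact i.2

theorem sat_realizedSentence {M : Type} [L.Structure M] (n : ℕ) (p : T.CompleteType (Fin n))
    (v : ℕ → M) : (realizedSentence n p).Sat v ↔
      ∃ w : Fin n → M, ∀ φ : L.Formula (Fin n), Formula.equivSentence φ ∈ p → φ.Realize w := by
  rw [realizedSentence, sat_exs]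
  constructor
  · rintro ⟨u, -, h⟩
    exact ⟨fun i => u i.val, h⟩
  · rintro ⟨w, h⟩
    refine ⟨fun j => if hj : j < n then w ⟨j, hj⟩ else v j, fun j hj => ?_, fun φ hφ => ?_⟩
    · exact dif_neg (by omega)
    · have e1 : (fun i : Fin n => if hj : i.val < n then w ⟨i.val, hj⟩ else v i.val) = w := by
        funext i
        rw [dif_pos i.2]
      have h1 := h φ hφ
      rw [← e1] at h1
      exact h1

theorem ee_of_type {M N : Type} [L.Structure M] [L.Structure N] [Nonempty M] [M ⊨ T] {n : ℕ}
    {v : Fin n → M} {w : Fin n → N}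
    (h : ∀ φ : L.Formula (Fin n), Formula.equivSentence φ ∈ T.typeOf v → φ.Realize w) :
    EE L v w := by
  intro φ
  constructor
  · intro h1
    exact h φ (Theory.CompleteType.formula_mem_typeOf.2 h1)
  · intro h1
    by_contra h2
    have h3 := h φ.not (Theory.CompleteType.formula_mem_typeOf.2 (by
      rw [Formula.realize_not]
      exact h2))
    rw [Formula.realize_not] at h3
    exact h3 h1

/-- the first-order part -/
theorem model_of_t1 {M N : Type} [L.Structure M] [L.Structure N] [Nonempty M] [Nonempty N]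
    [hMT : M ⊨ T] (h : ∀ φ ∈ T1 T M, ∀ v : ℕ → N, φ.Sat v) : N ⊨ T := by
  have h1 : Fm.typ 0 (T.typeOf (Fin.elim0 : Fin 0 → M)) Fin.elim0 ∈ T1 T M := by
    refine ⟨?_, fun v φ hφ => ?_⟩
    · rw [Fm.fv]
      ext j
      simp
    · have h2 := Theory.CompleteType.formula_mem_typeOf.1 hφ
      have e1 : (fun i => v (Fin.elim0 i) : Fin 0 → M) = Fin.elim0 := Subsingleton.elim _ _
      rw [e1]
      exact h2
  refine ⟨fun {σ} hσ => ?_⟩
  obtain ⟨b⟩ := ‹Nonempty N›
  have h2 := h _ h1 (fun _ => b) (Formula.relabel (Empty.elim : Empty → Fin 0) σ)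
    (Theory.CompleteType.formula_mem_typeOf.2 (by
      rw [Formula.realize_relabel]
      have h3 : M ⊨ σ := hMT.realize_of_mem σ hσ
      have e1 : (Fin.elim0 : Fin 0 → M) ∘ (Empty.elim : Empty → Fin 0) = default :=
        Subsingleton.elim _ _
      rw [e1]
      exact h3))
  rw [Formula.realize_relabel] at h2
  have e2 : (fun i : Fin 0 => (fun _ : ℕ => b) (Fin.elim0 i)) ∘ (Empty.elim : Empty → Fin 0) =
    default := Subsingleton.elim _ _
  rw [e2] at h2
  exact h2

theorem realize_iff_of_t1 {M N : Type} [L.Structure M] [L.Structure N] [Nonempty M] [Nonempty N]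
    [M ⊨ T] (h : ∀ φ ∈ T1 T M, ∀ v : ℕ → N, φ.Sat v) :
    (∀ (n : ℕ) (v : Fin n → M), ∃ w : Fin n → N, EE L v w) ∧
      ∀ (n : ℕ) (w : Fin n → N), ∃ v : Fin n → M, EE L v w := by
  have : N ⊨ T := model_of_t1 h
  obtain ⟨b⟩ := ‹Nonempty N›
  constructor
  · intro n v
    have h1 : realizedSentence n (T.typeOf v) ∈ T1 T M :=
      ⟨fv_realizedSentence _ _, fun u => (sat_realizedSentence n _ u).2
        ⟨v, fun φ hφ => Theory.CompleteType.formula_mem_typeOf.1 hφ⟩⟩
    obtain ⟨w, hw⟩ := (sat_realizedSentence n _ _).1 (h _ h1 fun _ => b)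
    exact ⟨w, ee_of_type hw⟩
  · intro n w
    have : Nonempty N := ⟨b⟩
    by_contra hcon
    have h1 : Fm.neg (realizedSentence n (T.typeOf w)) ∈ T1 T M := by
      refine ⟨fv_realizedSentence _ _, fun u hu => hcon ?_⟩
      obtain ⟨v, hv⟩ := (sat_realizedSentence n _ u).1 hu
      exact ⟨v, EE.symm (ee_of_type hv)⟩
    refine h _ h1 (fun _ => b) ((sat_realizedSentence n _ _).2 ⟨w, fun φ hφ => ?_⟩)
    exact Theory.CompleteType.formula_mem_typeOf.1 hφ

/-- every model of `T` with countable universe is determined by its `L_1(T)`-theory -/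
def T1Categorical (T : L.Theory) : Prop :=
  ∀ (M N : Type) [L.Structure M] [L.Structure N] [Nonempty M] [Nonempty N] [Countable M]
    [Countable N], M ⊨ T → (∀ φ ∈ T1 T M, ∀ v : ℕ → N, φ.Sat v) → Nonempty (M ≃[L] N)

/-- The formulas in `Φ` determine the symbols of the language in the models of `T`, and in every
countable model of `T` every element that is connected to an entry of a finite tuple is isolated
over this tuple. -/
structure Tame (T : L.Theory) (Φ : Set (Σ n : ℕ, L.Formula (Fin n))) : Prop where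
  isol : ∀ (M : Type) [L.Structure M] [Nonempty M] [Countable M], M ⊨ T → LocIsol Φ M
  det : ∀ (M N : Type) [L.Structure M] [L.Structure N] [Nonempty M] [Nonempty N] [Countable M]
    [Countable N], M ⊨ T → N ⊨ T → ∀ (k : ℕ) (a : Fin k → M) (b : Fin k → N),
      (∀ (n : ℕ) (φ : L.Formula (Fin n)), (⟨n, φ⟩ : Σ n : ℕ, L.Formula (Fin n)) ∈ Φ →
        ∀ s : Fin n → Fin k, (φ.Realize (a ∘ s) ↔ φ.Realize (b ∘ s))) →
      (∀ R : L.Relations k, Structure.RelMap R a ↔ Structure.RelMap R b) ∧
      ∀ (m : ℕ) (F : L.Functions m) (s : Fin m → Fin k) (j : Fin k),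
        Structure.funMap F (a ∘ s) = a j ↔ Structure.funMap F (b ∘ s) = b j

theorem Tame.categorical {T : L.Theory} {Φ : Set (Σ n : ℕ, L.Formula (Fin n))} (h : Tame T Φ) :
    T1Categorical T := by
  intro M N _ _ _ _ _ _ hM hN
  have hNT : N ⊨ T := model_of_t1 hN
  obtain ⟨h1, h2⟩ := realize_iff_of_t1 hN
  obtain ⟨f, hf⟩ := exists_iso (h.isol M hM) (h.isol N hNT) h1 h2
  refine ⟨⟨f, fun {n} g t => ?_, fun {n} R t => ?_⟩⟩
  · have h3 := (h.det M N hM hNT (n + 1) (Fin.snoc t (Structure.funMap g t) : Fin (n + 1) → M)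
      (f ∘ (Fin.snoc t (Structure.funMap g t) : Fin (n + 1) → M))
      (fun m φ hφ s => hf m φ hφ ((Fin.snoc t (Structure.funMap g t) : Fin (n + 1) → M) ∘ s))).2
      n g Fin.castSucc (Fin.last n)
    have e1 : (Fin.snoc t (Structure.funMap g t) : Fin (n + 1) → M) ∘ Fin.castSucc = t := by
      funext i
      exact Fin.snoc_castSucc (α := fun _ => M) _ _ _
    have e2 : (Fin.snoc t (Structure.funMap g t) : Fin (n + 1) → M) (Fin.last n) =
        Structure.funMap g t := Fin.snoc_last (α := fun _ => M) _ _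
    rw [Function.comp_assoc, e1, Function.comp_apply, e2] at h3
    exact (h3.1 rfl).symm
  · exact ((h.det M N hM hNT n t (f ∘ t) (fun m φ hφ s => hf m φ hφ (t ∘ s))).1 R).symm

/-- the graph of a function symbol -/
def graph {m : ℕ} (F : L.Functions m) : L.Formula (Fin (m + 1)) :=
  (Term.func F fun i => Term.var i.castSucc).equal (Term.var (Fin.last m))

theorem realize_graph {M : Type} [L.Structure M] {m : ℕ} (F : L.Functions m)
    (t : Fin (m + 1) → M) :
    (graph F).Realize t ↔ Structure.funMap F (fun i => t i.castSucc) = t (Fin.last m) := by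
  rw [graph, Formula.realize_equal]
  exact Iff.rfl

/-- the atomic formulas given by the relation symbols and the graphs of the function symbols -/
def atoms (L : FirstOrder.Language.{0, 0}) : Set (Σ n : ℕ, L.Formula (Fin n)) :=
  {x | (∃ (n : ℕ) (R : L.Relations n), x = ⟨n, R.formula fun i => Term.var i⟩) ∨
    ∃ (m : ℕ) (F : L.Functions m), x = ⟨m + 1, graph F⟩}

/-- In every countable model of `T` every element is in finitely many tuples satisfying any given
relation symbol, and in finitely many tuples of the graph of any given function symbol. -/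
structure LocallyFinite (T : L.Theory) : Prop where
  rel : ∀ (M : Type) [L.Structure M] [Nonempty M] [Countable M], M ⊨ T →
    ∀ (n : ℕ) (R : L.Relations n) (a : M),
      {t : Fin n → M | Structure.RelMap R t ∧ a ∈ range t}.Finite
  fn : ∀ (M : Type) [L.Structure M] [Nonempty M] [Countable M], M ⊨ T →
    ∀ (m : ℕ) (F : L.Functions m) (a : M),
      {t : Fin (m + 1) → M | Structure.funMap F (fun i => t i.castSucc) = t (Fin.last m) ∧
        a ∈ range t}.Finite

theorem LocallyFinite.tame {T : L.Theory} (h : LocallyFinite T) : Tame T (atoms L) := by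
  refine ⟨fun M i1 i2 i3 hM => ?_, fun M N i1 i2 i3 i4 i5 i6 hM hN k a b hab => ⟨fun R => ?_,
    fun m F s j => ?_⟩⟩
  · refine FinDeg.locIsol fun n φ hφ a => ?_
    rcases hφ with ⟨n', R, hR⟩ | ⟨m, F, hF⟩
    · obtain ⟨rfl, hR'⟩ := Sigma.mk.inj_iff.1 hR
      rw [heq_iff_eq] at hR'
      refine (h.rel M hM n R a).subset fun t ht => ⟨?_, ht.2⟩
      have h1 := ht.1
      rw [hR', Formula.realize_rel] at h1
      exact h1
    · obtain ⟨rfl, hF'⟩ := Sigma.mk.inj_iff.1 hF
      rw [heq_iff_eq] at hF'
      refine (h.fn M hM m F a).subset fun t ht => ⟨?_, ht.2⟩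
      have h1 := ht.1
      rw [hF', realize_graph] at h1
      exact h1
  · have h1 := hab k (R.formula fun i => Term.var i) (Or.inl ⟨k, R, rfl⟩) id
    rw [Formula.realize_rel, Formula.realize_rel] at h1
    exact h1
  · have h1 := hab (m + 1) (graph F) (Or.inr ⟨m, F, rfl⟩) (Fin.snoc s j : Fin (m + 1) → Fin k)
    rw [realize_graph, realize_graph] at h1
    have e1 : ∀ {X : Type} (c : Fin k → X), (fun i : Fin m =>
        (c ∘ (Fin.snoc s j : Fin (m + 1) → Fin k)) i.castSucc) = c ∘ s := by
      intro X c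
      funext i
      simp only [Function.comp_apply]
      congr 1
      exact Fin.snoc_castSucc (α := fun _ => Fin k) _ _ _
    have e2 : ∀ {X : Type} (c : Fin k → X),
        (c ∘ (Fin.snoc s j : Fin (m + 1) → Fin k)) (Fin.last m) = c j := by
      intro X c
      simp only [Function.comp_apply]
      congr 1
      exact Fin.snoc_last (α := fun _ => Fin k) _ _
    rw [e1, e1, e2, e2] at h1
    exact h1

end Pool.Agent.Helper140.MC
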