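import Pool.Agent.Helper140.MC.BF

set_option autoImplicit false

/-!
# Matching components
-/

namespace Pool.Agent.Helper140.MC

open FirstOrder FirstOrder.Language Set

/-- Two countable sets with the same finite lower bounds for the sizes of the fibres. -/
theorem fiber_equiv {A B : Type} {K : Type*} [Countable A] [Countable B] (f : A → K) (g : B → K)
    (h : ∀ κ (n : ℕ), (∃ x : Fin n → A, Function.Injective x ∧ ∀ i, f (x i) = κ) ↔
      ∃ y : Fin n → B, Function.Injective y ∧ ∀ i, g (y i) = κ) :
    ∃ e : A ≃ B, ∀ a, g (e a) = f a := by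
  have key : ∀ κ, Nonempty ({a // f a = κ} ≃ {b // g b = κ}) := by
    intro κ
    have h1 : ∀ n : ℕ, Nonempty (Fin n ↪ {a // f a = κ}) ↔ Nonempty (Fin n ↪ {b // g b = κ}) := by
      intro n
      have hA : Nonempty (Fin n ↪ {a // f a = κ}) ↔
          ∃ x : Fin n → A, Function.Injective x ∧ ∀ i, f (x i) = κ := by
        constructor
        · rintro ⟨x⟩
          exact ⟨fun i => (x i).1, fun i j hij => x.injective (Subtype.ext hij), fun i => (x i).2⟩
        · rintro ⟨x, hx, hx'⟩
          exact ⟨⟨fun i => ⟨x i, hx' i⟩, fun i j hij => hx (congrArg Subtype.val hij)⟩⟩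
      have hB : Nonempty (Fin n ↪ {b // g b = κ}) ↔
          ∃ x : Fin n → B, Function.Injective x ∧ ∀ i, g (x i) = κ := by
        constructor
        · rintro ⟨x⟩
          exact ⟨fun i => (x i).1, fun i j hij => x.injective (Subtype.ext hij), fun i => (x i).2⟩
        · rintro ⟨x, hx, hx'⟩
          exact ⟨⟨fun i => ⟨x i, hx' i⟩, fun i j hij => hx (congrArg Subtype.val hij)⟩⟩
      rw [hA, hB]
      exact h κ n
    have hfin : ∀ (X Y : Type), (∀ n : ℕ, Nonempty (Fin n ↪ X) ↔ Nonempty (Fin n ↪ Y)) →
        Finite X → Finite Y := by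
      intro X Y hXY hX
      by_contra hY
      rw [not_finite_iff_infinite] at hY
      have : Fintype X := Fintype.ofFinite X
      have h2 : Nonempty (Fin (Fintype.card X + 1) ↪ Y) :=
        ⟨Fin.valEmbedding.trans (Infinite.natEmbedding Y)⟩
      obtain ⟨e⟩ := (hXY _).2 h2
      have := Fintype.card_le_of_embedding e
      simp at this
    by_cases hX : Finite {a // f a = κ}
    · have hY := hfin _ _ h1 hX
      have : Fintype {a // f a = κ} := Fintype.ofFinite _
      have : Fintype {b // g b = κ} := Fintype.ofFinite _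
      have e1 : Fintype.card {a // f a = κ} ≤ Fintype.card {b // g b = κ} := by
        obtain ⟨e⟩ := (h1 (Fintype.card {a // f a = κ})).1
          ⟨(Fintype.equivFin _).symm.toEmbedding⟩
        have := Fintype.card_le_of_embedding e
        rwa [Fintype.card_fin] at this
      have e2 : Fintype.card {b // g b = κ} ≤ Fintype.card {a // f a = κ} := by
        obtain ⟨e⟩ := (h1 (Fintype.card {b // g b = κ})).2
          ⟨(Fintype.equivFin _).symm.toEmbedding⟩
        have := Fintype.card_le_of_embedding e
        rwa [Fintype.card_fin] at this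
      exact ⟨Fintype.equivOfCardEq (le_antisymm e1 e2)⟩
    · have hY : ¬ Finite {b // g b = κ} := fun hY => hX (hfin _ _ (fun n => (h1 n).symm) hY)
      rw [not_finite_iff_infinite] at hX hY
      exact nonempty_equiv_of_countable
  let E : A ≃ B := (Equiv.sigmaFiberEquiv f).symm.trans
    ((Equiv.sigmaCongrRight fun κ => (key κ).some).trans (Equiv.sigmaFiberEquiv g))
  refine ⟨E, fun a => ?_⟩
  have : E a = ((key (f a)).some ⟨a, rfl⟩).1 := rfl
  rw [this]
  exact ((key (f a)).some ⟨a, rfl⟩).2

variable {L : FirstOrder.Language.{0, 0}}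

/-- a structure with a distinguished subset -/
structure PS (L : FirstOrder.Language.{0, 0}) : Type 1 where
  /-- the universe -/
  M : Type
  /-- the structure -/
  str : L.Structure M
  /-- the subset -/
  S : Set M

/-- the subsets are isomorphic, with respect to all formulas -/
def PS.rel (X Y : PS L) : Prop :=
  ∃ e : X.S ≃ Y.S, ∀ (n : ℕ) (t : Fin n → X.S),
    @EE L X.M Y.M (Fin n) X.str Y.str (fun j => (t j).1) (fun j => (e (t j)).1)

/-- isomorphism of subsets -/
def psSetoid (L : FirstOrder.Language.{0, 0}) : Setoid (PS L) :=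
  ⟨PS.rel, ⟨fun _ => ⟨Equiv.refl _, fun _ _ _ => Iff.rfl⟩, fun {X Y} h => by
    obtain ⟨e, he⟩ := h
    refine ⟨e.symm, fun n t φ => ?_⟩
    have h1 := he n (fun j => e.symm (t j)) φ
    simp only [Equiv.apply_symm_apply] at h1
    exact h1.symm, fun {X Y Z} h h' => by
    obtain ⟨e, he⟩ := h
    obtain ⟨e', he'⟩ := h'
    exact ⟨e.trans e', fun n t φ => (he n t φ).trans (he' n (fun j => e (t j)) φ)⟩⟩⟩

variable (Φ : Set (Σ n : ℕ, L.Formula (Fin n)))

/-- the component of `a` -/
def cc {M : Type} [L.Structure M] (a : M) : Set M := {c | Conn Φ a c}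

/-- the isomorphism type of the component of `a` -/
def cls {M : Type} [str : L.Structure M] (a : M) : Quotient (psSetoid L) :=
  Quotient.mk _ ⟨M, str, cc Φ a⟩

/-- the relation of being connected -/
def connSetoid (M : Type) [L.Structure M] : Setoid M :=
  ⟨Conn Φ, ⟨fun _ => Conn.refl _, fun h => h.symm, fun h h' => h.trans h'⟩⟩

variable {Φ}

theorem cc_eq {M : Type} [L.Structure M] {a b : M} (h : Conn Φ a b) : cc Φ a = cc Φ b :=
  Set.ext fun _ => ⟨fun h' => h.symm.trans h', fun h' => h.trans h'⟩

theorem cls_eq_of_conn {M : Type} [L.Structure M] {a b : M} (h : Conn Φ a b) :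
    cls Φ a = cls Φ b := by
  unfold cls
  rw [cc_eq h]

theorem cls_eq_iff {M N : Type} [L.Structure M] [L.Structure N] {a : M} {b : N} :
    cls Φ a = cls Φ b ↔ ∃ e : cc Φ a ≃ cc Φ b, ∀ (n : ℕ) (t : Fin n → cc Φ a),
      EE L (fun j => (t j : M)) (fun j => (e (t j) : N)) := by
  unfold cls
  rw [Quotient.eq]
  exact Iff.rfl

end Pool.Agent.Helper140.MC
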