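import Pool.Agent.Helper140.MC.Glue

set_option autoImplicit false

/-!
# Countable models that realize the same types are isomorphic
-/

namespace Pool.Agent.Helper140.MC

open FirstOrder FirstOrder.Language Set

variable {L : FirstOrder.Language.{0, 0}} {Φ : Set (Σ n : ℕ, L.Formula (Fin n))}

theorem EE.conn_iff {M N α : Type} [L.Structure M] [L.Structure N] {v : α → M} {w : α → N}
    (h : EE L v w) (i j : α) : Conn Φ (v i) (v j) ↔ Conn Φ (w i) (w j) := by
  have h1 := h.comp (fun z : Bool => bif z then j else i)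
  have e1 : v ∘ (fun z : Bool => bif z then j else i) = pr (v i) (v j) := by
    funext z
    cases z <;> rfl
  have e2 : w ∘ (fun z : Bool => bif z then j else i) = pr (w i) (w j) := by
    funext z
    cases z <;> rfl
  rw [e1, e2] at h1
  exact ⟨h1.conn, (EE.symm h1).conn⟩

theorem EE.cls_eq {M N α : Type} [L.Structure M] [L.Structure N] [Countable M] [Countable N]
    [Finite α] (hM : LocIsol Φ M) (hN : LocIsol Φ N) {v : α → M} {w : α → N} (h : EE L v w)
    (i : α) : cls Φ (v i) = cls Φ (w i) := by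
  obtain ⟨e, he1, he2⟩ := component_equiv hM hN h
  have hc : ∀ x y : Cmp Φ v, Conn Φ x.1 y.1 ↔ Conn Φ (e x).1 (e y).1 := by
    intro x y
    exact (he2 Bool (fun z => bif z then y else x)).conn_iff (Φ := Φ) false true
  rw [cls_eq_iff]
  have k1 : ∀ c : cc Φ (v i), (e ⟨c.1, i, c.2⟩).1 ∈ cc Φ (w i) := by
    intro c
    have h1 := (hc ⟨v i, mem_cmp v i⟩ ⟨c.1, i, c.2⟩).1 c.2
    rw [he1] at h1
    exact h1
  have k2 : ∀ d : cc Φ (w i), (e.symm ⟨d.1, i, d.2⟩).1 ∈ cc Φ (v i) := by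
    intro d
    have h1 := (hc ⟨v i, mem_cmp v i⟩ (e.symm ⟨d.1, i, d.2⟩)).2 (by
      rw [he1, Equiv.apply_symm_apply]
      exact d.2)
    exact h1
  refine ⟨⟨fun c => ⟨_, k1 c⟩, fun d => ⟨_, k2 d⟩, fun c => ?_, fun d => ?_⟩, fun n t => ?_⟩
  · apply Subtype.ext
    simp only
    have : (⟨(e ⟨c.1, i, c.2⟩).1, i, k1 c⟩ : Cmp Φ w) = e ⟨c.1, i, c.2⟩ := rfl
    rw [this, Equiv.symm_apply_apply]
  · apply Subtype.ext
    simp only
    have : (⟨(e.symm ⟨d.1, i, d.2⟩).1, i, k2 d⟩ : Cmp Φ v) = e.symm ⟨d.1, i, d.2⟩ := rfl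
    rw [this, Equiv.apply_symm_apply]
  · exact he2 (Fin n) (fun j => ⟨(t j).1, i, (t j).2⟩)

/-- the isomorphism type of a component -/
def qcls (Φ : Set (Σ n : ℕ, L.Formula (Fin n))) {M : Type} [L.Structure M] :
    Quotient (connSetoid Φ M) → Quotient (psSetoid L) :=
  Quotient.lift (cls Φ) fun _ _ h => cls_eq_of_conn h

theorem qcls_out {M : Type} [L.Structure M] (q : Quotient (connSetoid Φ M)) :
    cls Φ q.out = qcls Φ q := by
  conv_rhs => rw [← q.out_eq]
  rfl

theorem count_le {M N : Type} [L.Structure M] [L.Structure N] [Countable M] [Countable N]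
    (hM : LocIsol Φ M) (hN : LocIsol Φ N)
    (h1 : ∀ (n : ℕ) (v : Fin n → M), ∃ w : Fin n → N, EE L v w) (κ : Quotient (psSetoid L))
    (n : ℕ) (h : ∃ x : Fin n → Quotient (connSetoid Φ M), Function.Injective x ∧
      ∀ i, qcls Φ (x i) = κ) :
    ∃ y : Fin n → Quotient (connSetoid Φ N), Function.Injective y ∧ ∀ i, qcls Φ (y i) = κ := by
  obtain ⟨x, hx1, hx2⟩ := h
  obtain ⟨w, hw⟩ := h1 n fun i => (x i).out
  refine ⟨fun i => Quotient.mk _ (w i), fun i j hij => ?_, fun i => ?_⟩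
  · have h2 : Conn Φ (w i) (w j) := Quotient.exact hij
    have h3 := (hw.conn_iff (Φ := Φ) i j).2 h2
    apply hx1
    rw [← (x i).out_eq, ← (x j).out_eq]
    exact Quotient.sound h3
  · change cls Φ (w i) = κ
    rw [← hw.cls_eq hM hN i, qcls_out]
    exact hx2 i

/-- **The isomorphism.** -/
theorem exists_iso {M N : Type} [L.Structure M] [L.Structure N] [Countable M] [Countable N]
    (hM : LocIsol Φ M) (hN : LocIsol Φ N)
    (h1 : ∀ (n : ℕ) (v : Fin n → M), ∃ w : Fin n → N, EE L v w)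
    (h2 : ∀ (n : ℕ) (w : Fin n → N), ∃ v : Fin n → M, EE L v w) :
    ∃ f : M ≃ N, ∀ (n : ℕ) (φ : L.Formula (Fin n)), (⟨n, φ⟩ : Σ n : ℕ, L.Formula (Fin n)) ∈ Φ →
      ∀ t : Fin n → M, φ.Realize t ↔ φ.Realize fun j => f (t j) := by
  obtain ⟨e, he⟩ := fiber_equiv (qcls Φ (M := M)) (qcls Φ (M := N)) fun κ n =>
    ⟨count_le hM hN h1 κ n, count_le hN hM (fun n w => by
      obtain ⟨v, hv⟩ := h2 n w
      exact ⟨v, EE.symm hv⟩) κ n⟩
  have hι : ∀ q : Quotient (connSetoid Φ M), ∃ ι : cc Φ q.out ≃ cc Φ (e q).out,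
      ∀ (n : ℕ) (t : Fin n → cc Φ q.out), EE L (fun j => (t j : M)) (fun j => (ι (t j) : N)) := by
    intro q
    rw [← cls_eq_iff, qcls_out, qcls_out, he]
  choose ι hι using hι
  have hmem : ∀ x : M, x ∈ cc Φ (Quotient.mk (connSetoid Φ M) x).out := fun x =>
    Quotient.mk_out (s := connSetoid Φ M) x
  have hmemN : ∀ x : N, x ∈ cc Φ (Quotient.mk (connSetoid Φ N) x).out := fun x =>
    Quotient.mk_out (s := connSetoid Φ N) x
  let F : M → N := fun x => (ι (Quotient.mk _ x) ⟨x, hmem x⟩).1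
  have hF : ∀ (q : Quotient (connSetoid Φ M)) (x : M) (hx : x ∈ cc Φ q.out),
      F x = (ι q ⟨x, hx⟩).1 := by
    intro q x hx
    have h3 : Quotient.mk (connSetoid Φ M) x = q := by
      rw [← q.out_eq]
      exact (Quotient.sound hx).symm
    subst h3
    rfl
  have hFq : ∀ x, Quotient.mk (connSetoid Φ N) (F x) = e (Quotient.mk _ x) := by
    intro x
    have h3 := (ι (Quotient.mk _ x) ⟨x, hmem x⟩).2
    have h4 := Quotient.sound (s := connSetoid Φ N) h3
    rw [Quotient.out_eq] at h4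
    exact h4.symm
  have hinj : Function.Injective F := by
    intro x y hxy
    have h3 : Quotient.mk (connSetoid Φ M) x = Quotient.mk _ y := by
      apply e.injective
      rw [← hFq, ← hFq, hxy]
    have h4 : y ∈ cc Φ (Quotient.mk (connSetoid Φ M) x).out := by
      rw [h3]
      exact hmem y
    rw [hF _ x (hmem x), hF _ y h4] at hxy
    have h5 := (ι _).injective (Subtype.ext hxy)
    exact congrArg Subtype.val h5
  have hsurj : Function.Surjective F := by
    intro y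
    have h3 : e (e.symm (Quotient.mk (connSetoid Φ N) y)) = Quotient.mk _ y :=
      Equiv.apply_symm_apply _ _
    have h4 : y ∈ cc Φ (e (e.symm (Quotient.mk (connSetoid Φ N) y))).out := by
      rw [h3]
      exact hmemN y
    refine ⟨((ι (e.symm (Quotient.mk (connSetoid Φ N) y))).symm ⟨y, h4⟩).1, ?_⟩
    rw [hF _ _ ((ι (e.symm (Quotient.mk (connSetoid Φ N) y))).symm ⟨y, h4⟩).2]
    have h5 : (⟨((ι (e.symm (Quotient.mk (connSetoid Φ N) y))).symm ⟨y, h4⟩).1,
      ((ι (e.symm (Quotient.mk (connSetoid Φ N) y))).symm ⟨y, h4⟩).2⟩ :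
      cc Φ (e.symm (Quotient.mk (connSetoid Φ N) y)).out) =
      (ι (e.symm (Quotient.mk (connSetoid Φ N) y))).symm ⟨y, h4⟩ := rfl
    rw [h5]
    exact congrArg Subtype.val ((ι _).apply_symm_apply ⟨y, h4⟩)
  refine ⟨Equiv.ofBijective F ⟨hinj, hsurj⟩, fun n φ hφ t => ?_⟩
  change φ.Realize t ↔ φ.Realize fun j => F (t j)
  -- tuples in one component
  have hone : ∀ q : Quotient (connSetoid Φ M), (∀ j, Quotient.mk _ (t j) = q) →
      (φ.Realize t ↔ φ.Realize fun j => F (t j)) := by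
    intro q hq
    have h3 : ∀ j, t j ∈ cc Φ q.out := fun j => by
      rw [← hq j]
      exact hmem _
    have h4 := hι q n (fun j => ⟨t j, h3 j⟩) φ
    have h5 : (fun j => F (t j)) = fun j => (ι q ⟨t j, h3 j⟩).1 := by
      funext j
      exact hF q (t j) (h3 j)
    rw [h5]
    exact h4
  rcases Nat.eq_zero_or_pos n with hn | hn
  · subst hn
    obtain ⟨w, hw⟩ := h1 0 t
    have h3 : w = fun j => F (t j) := Subsingleton.elim _ _
    rw [← h3]
    exact hw φ
  · constructor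
    · intro h3
      refine (hone (Quotient.mk _ (t ⟨0, hn⟩)) fun j => Quotient.sound ?_).1 h3
      exact Relation.ReflTransGen.single ⟨n, φ, hφ, t, h3, ⟨j, rfl⟩, ⟨⟨0, hn⟩, rfl⟩⟩
    · intro h3
      refine (hone (Quotient.mk _ (t ⟨0, hn⟩)) fun j => ?_).2 h3
      apply e.injective
      rw [← hFq, ← hFq]
      apply Quotient.sound
      exact Relation.ReflTransGen.single ⟨n, φ, hφ, _, h3, ⟨j, rfl⟩, ⟨⟨0, hn⟩, rfl⟩⟩

end Pool.Agent.Helper140.MC
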