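import Mathlib

set_option autoImplicit false

/-!
# Elementary maps, isolated and algebraic elements, paths

`Φ` is a set of formulas; two elements are adjacent if they occur together in a tuple satisfying a
formula in `Φ`.
-/

namespace Pool.Agent.Helper140.MC

open FirstOrder FirstOrder.Language Set

section

variable (L : FirstOrder.Language.{0, 0})

/-- the tuples satisfy the same formulas -/
def EE {M N α : Type} [L.Structure M] [L.Structure N] (v : α → M) (w : α → N) : Prop :=
  ∀ φ : L.Formula α, φ.Realize v ↔ φ.Realize w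

/-- the tuple `v` extended by the element `c` -/
def ext {M α : Type} (v : α → M) (c : M) : α ⊕ Unit → M := Sum.elim v fun _ => c

/-- `c` is isolated over `v` -/
def Isol {M α : Type} [L.Structure M] (v : α → M) (c : M) : Prop :=
  ∃ ψ : L.Formula (α ⊕ Unit), ψ.Realize (ext v c) ∧
    ∀ c', ψ.Realize (ext v c') → EE L (ext v c) (ext v c')

/-- `c` is algebraic over `v` -/
def Alg {M α : Type} [L.Structure M] (v : α → M) (c : M) : Prop :=
  ∃ ψ : L.Formula (α ⊕ Unit), ψ.Realize (ext v c) ∧ {c' | ψ.Realize (ext v c')}.Finite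

end

variable {L : FirstOrder.Language.{0, 0}}

theorem EE.comp {M N α β : Type} [L.Structure M] [L.Structure N] {v : α → M} {w : α → N}
    (h : EE L v w) (g : β → α) : EE L (v ∘ g) (w ∘ g) := fun φ => by
  have h1 := h (φ.relabel g)
  rwa [Formula.realize_relabel, Formula.realize_relabel] at h1

theorem EE.symm {M N α : Type} [L.Structure M] [L.Structure N] {v : α → M} {w : α → N}
    (h : EE L v w) : EE L w v := fun φ => (h φ).symm

theorem Isol.extend {M N α : Type} [L.Structure M] [L.Structure N] {v : α → M} {w : α → N}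
    (h : EE L v w) {c : M} (hc : Isol L v c) : ∃ d : N, EE L (ext v c) (ext w d) := by
  obtain ⟨ψ, h1, h2⟩ := hc
  have h3 : (ψ.iExs Unit).Realize v := Formula.realize_iExs.2 ⟨fun _ => c, h1⟩
  rw [h] at h3
  obtain ⟨i, hi⟩ := Formula.realize_iExs.1 h3
  have key : ∀ φ : L.Formula (α ⊕ Unit), φ.Realize (ext v c) → φ.Realize (ext w (i ())) := by
    intro φ hφ
    have h4 : ((ψ.imp φ).iAlls Unit).Realize v := by
      rw [Formula.realize_iAlls]
      intro j
      rw [Formula.realize_imp]
      intro h5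
      exact (h2 (j ()) h5 φ).1 hφ
    rw [h, Formula.realize_iAlls] at h4
    have h5 := h4 i
    rw [Formula.realize_imp] at h5
    exact h5 hi
  refine ⟨i (), fun φ => ⟨key φ, fun h4 => ?_⟩⟩
  by_contra h5
  have h6 := key φ.not (by rw [Formula.realize_not]; exact h5)
  rw [Formula.realize_not] at h6
  exact h6 h4

theorem Alg.isol {M α : Type} [L.Structure M] {v : α → M} {c : M} (h : Alg L v c) :
    Isol L v c := by
  classical
  have h0 : ∃ k : ℕ, ∃ ψ : L.Formula (α ⊕ Unit), ψ.Realize (ext v c) ∧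
      {c' | ψ.Realize (ext v c')}.Finite ∧ {c' | ψ.Realize (ext v c')}.ncard = k := by
    obtain ⟨ψ, h1, h2⟩ := h
    exact ⟨_, ψ, h1, h2, rfl⟩
  obtain ⟨ψ, h1, h2, h3⟩ := Nat.find_spec h0
  have hmin : ∀ χ : L.Formula (α ⊕ Unit), χ.Realize (ext v c) → ∀ c', ψ.Realize (ext v c') →
      χ.Realize (ext v c') := by
    intro χ hχ c' hc'
    by_contra hcon
    have hsub : {c' | (ψ ⊓ χ).Realize (ext v c')} ⊂ {c' | ψ.Realize (ext v c')} := by
      refine ⟨fun x hx => ?_, fun hle => ?_⟩
      · have : (ψ ⊓ χ).Realize (ext v x) := hx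
        rw [Formula.realize_inf] at this
        exact this.1
      · have : (ψ ⊓ χ).Realize (ext v c') := hle hc'
        rw [Formula.realize_inf] at this
        exact hcon this.2
    have hlt := Set.ncard_lt_ncard hsub h2
    rw [h3] at hlt
    refine Nat.find_min h0 hlt ⟨ψ ⊓ χ, ?_, h2.subset hsub.1, rfl⟩
    rw [Formula.realize_inf]
    exact ⟨h1, hχ⟩
  refine ⟨ψ, h1, fun c' hc' φ => ⟨fun h4 => hmin φ h4 c' hc', fun h4 => ?_⟩⟩
  by_contra h5
  have h6 := hmin φ.not (by rw [Formula.realize_not]; exact h5) c' hc'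
  rw [Formula.realize_not] at h6
  exact h6 h4

/-! ### Paths -/

/-- a pair of elements, as a tuple -/
def pr {M : Type} (a b : M) : Bool → M := fun x => bif x then b else a

section

variable (Φ : Set (Σ n : ℕ, L.Formula (Fin n)))

/-- `a` and `b` occur in a tuple satisfying a formula in `Φ` -/
def Adj {M : Type} [L.Structure M] (a b : M) : Prop :=
  ∃ (n : ℕ) (φ : L.Formula (Fin n)), (⟨n, φ⟩ : Σ n : ℕ, L.Formula (Fin n)) ∈ Φ ∧
    ∃ t : Fin n → M, φ.Realize t ∧ a ∈ range t ∧ b ∈ range t

/-- connected by a path -/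
def Conn {M : Type} [L.Structure M] (a b : M) : Prop := Relation.ReflTransGen (Adj Φ) a b

/-- every element is in finitely many tuples satisfying any given formula in `Φ` -/
def FinDeg (M : Type) [L.Structure M] : Prop :=
  ∀ (n : ℕ) (φ : L.Formula (Fin n)), (⟨n, φ⟩ : Σ n : ℕ, L.Formula (Fin n)) ∈ Φ →
    ∀ a : M, {t : Fin n → M | φ.Realize t ∧ a ∈ range t}.Finite

/-- An element that is connected to an entry of a finite tuple is isolated over this tuple. -/
def LocIsol (M : Type) [L.Structure M] : Prop :=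
  ∀ (α : Type) [Finite α] (v : α → M) (i : α) (c : M), Conn Φ (v i) c → Isol L v c

variable {Φ}

theorem Adj.symm {M : Type} [L.Structure M] {a b : M} (h : Adj Φ a b) : Adj Φ b a := by
  obtain ⟨n, φ, h1, t, h2, h3, h4⟩ := h
  exact ⟨n, φ, h1, t, h2, h4, h3⟩

theorem Conn.symm {M : Type} [L.Structure M] {a b : M} (h : Conn Φ a b) : Conn Φ b a := by
  induction h with
  | refl => exact Relation.ReflTransGen.refl
  | tail _ h2 ih => exact Relation.ReflTransGen.head h2.symm ih

theorem Conn.trans {M : Type} [L.Structure M] {a b c : M} (h : Conn Φ a b) (h' : Conn Φ b c) :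
    Conn Φ a c := Relation.ReflTransGen.trans h h'

theorem Conn.refl {M : Type} [L.Structure M] (a : M) : Conn Φ a a := Relation.ReflTransGen.refl

theorem path {M : Type} [L.Structure M] {a b : M} (h : Conn Φ a b) :
    ∃ χ : L.Formula Bool, χ.Realize (pr a b) ∧ ∀ (N : Type) [L.Structure N],
      (∀ c d : N, χ.Realize (pr c d) → Conn Φ c d) ∧
      (FinDeg Φ N → ∀ c : N, {d | χ.Realize (pr c d)}.Finite) := by
  induction h with
  | refl =>
    refine ⟨(Term.var false : L.Term Bool).equal (Term.var true), ?_, fun N _ => ⟨?_, ?_⟩⟩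
    · rw [Formula.realize_equal]
      rfl
    · intro c d h
      rw [Formula.realize_equal] at h
      have : c = d := h
      rw [this]
      exact Conn.refl d
    · intro _ c
      refine (Set.finite_singleton c).subset fun d hd => ?_
      have h1 : ((Term.var false : L.Term Bool).equal (Term.var true)).Realize (pr c d) := hd
      rw [Formula.realize_equal] at h1
      have : c = d := h1
      exact this.symm
  | @tail b c _ h2 ih =>
    obtain ⟨χ, h3, h4⟩ := ih
    obtain ⟨n, φ, h5, t, h6, ⟨p, hp⟩, ⟨q, hq⟩⟩ := h2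
    let g1 : Bool → Bool ⊕ Fin n := fun x => bif x then Sum.inr p else Sum.inl false
    let χ' : L.Formula Bool := Formula.iExs (Fin n) ((χ.relabel g1 ⊓ φ.relabel Sum.inr) ⊓
      (Term.var (Sum.inl true) : L.Term (Bool ⊕ Fin n)).equal (Term.var (Sum.inr q)))
    have key : ∀ (N : Type) [L.Structure N] (x y : N), χ'.Realize (pr x y) ↔
        ∃ s : Fin n → N, χ.Realize (pr x (s p)) ∧ φ.Realize s ∧ y = s q := by
      intro N _ x y
      simp only [χ']
      rw [Formula.realize_iExs]
      refine exists_congr fun s => ?_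
      rw [Formula.realize_inf, Formula.realize_inf, Formula.realize_relabel,
        Formula.realize_relabel, Formula.realize_equal, and_assoc]
      have e1 : (fun a => Sum.elim (pr x y) s a) ∘ g1 = pr x (s p) := by
        funext z
        cases z <;> rfl
      have e2 : (fun a => Sum.elim (pr x y) s a) ∘ Sum.inr = s := rfl
      rw [e1, e2]
      exact Iff.rfl
    refine ⟨χ', (key M _ _).2 ⟨t, by rw [hp]; exact h3, h6, hq.symm⟩, fun N _ => ⟨?_, ?_⟩⟩
    · intro x y h
      obtain ⟨s, h7, h8, rfl⟩ := (key N x y).1 h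
      exact ((h4 N).1 _ _ h7).trans (Relation.ReflTransGen.single
        ⟨n, φ, h5, s, h8, ⟨p, rfl⟩, ⟨q, rfl⟩⟩)
    · intro hN x
      have h7 := (h4 N).2 hN x
      refine (h7.biUnion (t := fun e => (fun s : Fin n → N => s q) ''
        {s : Fin n → N | φ.Realize s ∧ e ∈ range s}) fun e _ => (hN n φ h5 e).image _).subset ?_
      intro y hy
      obtain ⟨s, h8, h9, rfl⟩ := (key N x y).1 hy
      rw [Set.mem_iUnion₂]
      exact ⟨s p, h8, s, ⟨h9, ⟨p, rfl⟩⟩, rfl⟩

theorem EE.conn {M N : Type} [L.Structure M] [L.Structure N] {a b : M} {c d : N}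
    (h : EE L (pr a b) (pr c d)) (hab : Conn Φ a b) : Conn Φ c d := by
  obtain ⟨χ, h1, h2⟩ := path hab
  exact (h2 N).1 _ _ ((h χ).1 h1)

theorem Conn.alg {M α : Type} [L.Structure M] (hM : FinDeg Φ M) {v : α → M} {i : α} {c : M}
    (h : Conn Φ (v i) c) : Alg L v c := by
  obtain ⟨χ, h1, h2⟩ := path h
  let g : Bool → α ⊕ Unit := fun x => bif x then Sum.inr () else Sum.inl i
  have e1 : ∀ c', ext v c' ∘ g = pr (v i) c' := by
    intro c'
    funext z
    cases z <;> rfl
  refine ⟨χ.relabel g, ?_, ?_⟩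
  · rw [Formula.realize_relabel, e1]
    exact h1
  · refine ((h2 M).2 hM (v i)).subset fun c' hc' => ?_
    have h3 : (χ.relabel g).Realize (ext v c') := hc'
    rw [Formula.realize_relabel, e1] at h3
    exact h3

theorem FinDeg.locIsol {M : Type} [L.Structure M] (hM : FinDeg Φ M) : LocIsol Φ M :=
  fun _ _ _ _ _ h => (Conn.alg hM h).isol

end

end Pool.Agent.Helper140.MC
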